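import Pool.Agent.W945.Lc.Stm

/-! IDX: from lists to chains. -/

set_option autoImplicit false

namespace Pool.Agent.W585.Lc.IDX

open Pool.Agent.W945.Pw Pool.Agent.W945.Lc

variable {n : ℕ}

theorem av_not {g : ℕ → Fn n} {P : ℕ → Prop} {a : Fn n} (h : Av g P a) :
    Av g P (fun x => !a x) := by
  obtain ⟨c, h | ⟨i, h⟩ | ⟨j, hj, h⟩⟩ := h
  · exact ⟨!c, Or.inl fun x => by show (!a x) = _; rw [h x]⟩
  · exact ⟨!c, Or.inr (Or.inl ⟨i, fun x => by
      show (!a x) = _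
      rw [h x]; cases x i <;> cases c <;> rfl⟩)⟩
  · exact ⟨!c, Or.inr (Or.inr ⟨j, hj, fun x => by
      show (!a x) = _
      rw [h x]; cases g j x <;> cases c <;> rfl⟩)⟩

theorem av_congr {g g' : ℕ → Fn n} {P : ℕ → Prop} {a : Fn n} (hg : ∀ j, P j → g' j = g j)
    (h : Av g P a) : Av g' P a := by
  obtain ⟨c, h | ⟨i, h⟩ | ⟨j, hj, h⟩⟩ := h
  · exact ⟨c, Or.inl h⟩
  · exact ⟨c, Or.inr (Or.inl ⟨i, h⟩)⟩
  · exact ⟨c, Or.inr (Or.inr ⟨j, hj, fun x => by rw [hg j hj]; exact h x⟩)⟩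

theorem av_of_avail {g : ℕ → Fn n} {m : ℕ} {L : List (Fn n)} {a : Fn n}
    (hL : ∀ h ∈ L, ∃ (c : Bool) (j : ℕ), j < m ∧ ∀ x, h x = xor (g j x) c) (h : Avail L a) :
    Av g (fun j => j < m) a := by
  obtain ⟨c, h | ⟨i, h⟩ | ⟨f, hf, h⟩⟩ := h
  · exact ⟨c, Or.inl h⟩
  · exact ⟨c, Or.inr (Or.inl ⟨i, h⟩)⟩
  · obtain ⟨c', j, hj, h'⟩ := hL f hf
    exact ⟨xor c' c, Or.inr (Or.inr ⟨j, hj, fun x => by rw [h x, h' x, Bool.xor_assoc]⟩)⟩

theorem step {g : ℕ → Fn n} {m : ℕ} (hg : Chain m g) {a b : Fn n}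
    (ha : Av g (fun j => j < m) a) (hb : Av g (fun j => j < m) b) :
    ∃ g' : ℕ → Fn n, Chain (m + 1) g' ∧ (∀ j < m, g' j = g j) ∧ ∀ x, g' m x = (a x && b x) := by
  have hne : ∀ j < m, Function.update g m (fun x => a x && b x) j = g j := fun j hj =>
    Function.update_of_ne (by omega) _ _
  refine ⟨Function.update g m (fun x => a x && b x), ?_, hne, fun x => by
    rw [Function.update_self]⟩
  intro k hk
  rcases Nat.lt_succ_iff_lt_or_eq.1 hk with hk' | rfl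
  · obtain ⟨a', b', ha', hb', h⟩ := hg k hk'
    refine ⟨a', b', av_congr (fun j hj => hne j (lt_trans hj hk')) ha',
      av_congr (fun j hj => hne j (lt_trans hj hk')) hb', fun x => ?_⟩
    rw [hne k hk']
    exact h x
  · exact ⟨a, b, av_congr (fun j hj => hne j hj) ha, av_congr (fun j hj => hne j hj) hb,
      fun x => by rw [Function.update_self]⟩

theorem chain_of_circuit {L : List (Fn n)} (hL : IsCircuit L) :
    ∃ g : ℕ → Fn n, Chain L.length g ∧
      ∀ h ∈ L, ∃ (c : Bool) (j : ℕ), j < L.length ∧ ∀ x, h x = xor (g j x) c := by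
  induction hL with
  | nil => exact ⟨fun _ _ => false, fun k hk => absurd hk (Nat.not_lt_zero k), fun h hh =>
      absurd hh List.not_mem_nil⟩
  | and L a b _ ha hb ih =>
    obtain ⟨g, hg, hm⟩ := ih
    obtain ⟨g', hg', he, hx⟩ := step hg (av_of_avail hm ha) (av_of_avail hm hb)
    refine ⟨g', hg', fun h hh => ?_⟩
    rcases List.mem_cons.1 hh with rfl | hh
    · exact ⟨false, L.length, Nat.lt_succ_self _, fun x => by rw [hx x, Bool.xor_false]⟩
    · obtain ⟨c, j, hj, h'⟩ := hm h hh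
      exact ⟨c, j, Nat.lt_succ_of_lt hj, fun x => by rw [he j hj]; exact h' x⟩
  | or L a b _ ha hb ih =>
    obtain ⟨g, hg, hm⟩ := ih
    obtain ⟨g', hg', he, hx⟩ := step hg (av_not (av_of_avail hm ha)) (av_not (av_of_avail hm hb))
    refine ⟨g', hg', fun h hh => ?_⟩
    rcases List.mem_cons.1 hh with rfl | hh
    · exact ⟨true, L.length, Nat.lt_succ_self _, fun x => by
        show (a x || b x) = _
        rw [hx x]; cases a x <;> cases b x <;> rfl⟩
    · obtain ⟨c, j, hj, h'⟩ := hm h hh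
      exact ⟨c, j, Nat.lt_succ_of_lt hj, fun x => by rw [he j hj]; exact h' x⟩

theorem main : IDX.Stm := by
  intro n s f hf
  obtain ⟨L, hL, hs, ha⟩ := hf
  obtain ⟨g, hg, hm⟩ := chain_of_circuit hL
  exact ⟨L.length, hs, g, hg, av_of_avail hm ha⟩

end Pool.Agent.W585.Lc.IDX
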